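import Pool.Agent.helper78.EQ.Spec

/-!
Module eq:SZ0 of project EQ (MP_4467b5_nt): from the sums of `n^(-it)` to the sums of `n^(-σ-it)`.
-/

set_option autoImplicit false

open Complex MeasureTheory Set Metric

namespace Pool.Agent.EQ

lemma helper29_c1_norm (n : ℕ) : ‖c1 n‖ ≤ 1 := by
  unfold c1
  split_ifs
  · simp
  · simp

lemma helper29_nit (n : ℕ) (hn : n ≠ 0) (t : ℝ) : ‖(n : ℂ) ^ (-((t : ℂ) * I))‖ = 1 := by
  rw [Complex.norm_natCast_cpow_of_pos (Nat.pos_of_ne_zero hn)]
  simp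

/-- the bound for short sums -/
lemma helper29_short (t u : ℝ) (hu : 1 ≤ u) : ‖S c1 (1 / u) t‖ ≤ 2 * Real.exp (-u) := by
  set r : ℝ := Real.exp (-u) with hr
  have hr0 : 0 < r := Real.exp_pos _
  have hr1 : r ≤ 1 / 2 := by
    have h1 : Real.exp (-u) ≤ Real.exp (-1) := Real.exp_le_exp.2 (by linarith)
    have h2 : Real.exp (-1) ≤ 1 / 2 := by
      have h3 : (2 : ℝ) ≤ Real.exp 1 := by
        have := Real.add_one_le_exp (1 : ℝ)
        linarith
      rw [Real.exp_neg]
      rw [inv_le_comm₀ (Real.exp_pos _) (by norm_num)]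
      linarith
    exact h1.trans h2
  have hs : HasSum (fun n : ℕ => r ^ n - (if n = 0 then (1 : ℝ) else 0)) ((1 - r)⁻¹ - 1) :=
    (hasSum_geometric_of_lt_one hr0.le (by linarith)).sub (hasSum_ite_eq 0 1)
  have h1 : ‖S c1 (1 / u) t‖ ≤ (1 - r)⁻¹ - 1 := by
    unfold S
    apply tsum_of_norm_bounded hs
    intro n
    by_cases hn : n = 0
    · subst hn
      simp [c1]
    · rw [norm_mul, norm_mul, helper29_nit n hn, mul_one, if_neg hn, sub_zero, Complex.norm_real,
        Real.norm_eq_abs, abs_of_pos (Real.exp_pos _)]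
      have h2 : Real.exp (-((n : ℝ) / (1 / u))) = r ^ n := by
        rw [hr, ← Real.exp_nat_mul]
        congr 1
        rw [div_div_eq_mul_div]
        ring
      rw [h2]
      have h3 := helper29_c1_norm n
      have h4 : 0 < r ^ n := by positivity
      nlinarith
  refine h1.trans ?_
  have h5 : 0 < 1 - r := by linarith
  have h6 : (1 - r)⁻¹ - 1 = r / (1 - r) := by field_simp; ring
  rw [h6, div_le_iff₀ h5]
  nlinarith

/-- the Mellin integral of one term -/
lemma helper29_int (σ : ℝ) (hσ : 0 < σ) (n : ℕ) (hn : n ≠ 0) :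
    IntegrableOn (fun y : ℝ => y ^ (σ - 1) * Real.exp (-((n : ℝ) * y))) (Ioi 0) ∧
    ∫ y in Ioi (0 : ℝ), y ^ (σ - 1) * Real.exp (-((n : ℝ) * y)) =
      (1 / (n : ℝ)) ^ σ * Real.Gamma σ := by
  have hn0 : (0 : ℝ) < n := by exact_mod_cast Nat.pos_of_ne_zero hn
  have h1 := Real.integral_rpow_mul_exp_neg_mul_Ioi hσ hn0
  refine ⟨?_, h1⟩
  apply MeasureTheory.Integrable.of_integral_ne_zero
  rw [h1]
  have h2 : 0 < (1 / (n : ℝ)) ^ σ := Real.rpow_pos_of_pos (by positivity) _
  have h3 := Real.Gamma_pos_of_pos hσ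
  positivity

/-- the integral representation -/
lemma helper29_rep (σ t N : ℝ) (hσ : 0 < σ) (hN : 1 ≤ N) :
    (Real.Gamma σ : ℂ) * (∑' n : ℕ, c1 n * ((Real.exp (-((n : ℝ) / N)) : ℝ) : ℂ) *
      (n : ℂ) ^ (-((σ : ℂ) + t * I))) =
    ∫ y in Ioi (0 : ℝ), S c1 (1 / (y + 1 / N)) t * ((y ^ (σ - 1) : ℝ) : ℂ) := by
  have hN0 : 0 < N := by linarith
  have hΓ := Real.Gamma_pos_of_pos hσ
  set f : ℕ → ℝ → ℂ := fun n y => c1 n * ((Real.exp (-((n : ℝ) / N)) : ℝ) : ℂ) *
    (n : ℂ) ^ (-((t : ℂ) * I)) * ((y ^ (σ - 1) * Real.exp (-((n : ℝ) * y)) : ℝ) : ℂ) with hf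
  have hint : ∀ n, Integrable (f n) (volume.restrict (Ioi (0 : ℝ))) := by
    intro n
    by_cases hn : n = 0
    · subst hn
      have : f 0 = fun _ => 0 := by
        funext y; simp [hf, c1]
      rw [this]
      exact integrable_zero _ _ _
    · exact ((helper29_int σ hσ n hn).1.ofReal (𝕜 := ℂ)).const_mul _
  have hnorm : ∀ n, ∫ y in Ioi (0 : ℝ), ‖f n y‖ ≤ Real.Gamma σ * Real.exp (-((n : ℝ) / N)) := by
    intro n
    by_cases hn : n = 0
    · subst hn
      have : ∀ y, ‖f 0 y‖ = 0 := by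
        intro y; simp [hf, c1]
      simp only [this]
      simp only [integral_zero]
      positivity
    · have hn0 : (0 : ℝ) < n := by exact_mod_cast Nat.pos_of_ne_zero hn
      have h1 : ∀ y ∈ Ioi (0 : ℝ), ‖f n y‖ = (‖c1 n‖ * Real.exp (-((n : ℝ) / N))) *
          (y ^ (σ - 1) * Real.exp (-((n : ℝ) * y))) := by
        intro y hy
        have hy0 : (0 : ℝ) < y := hy
        have h2 : 0 ≤ y ^ (σ - 1) * Real.exp (-((n : ℝ) * y)) := by positivity
        simp only [hf]
        rw [norm_mul, norm_mul, norm_mul, helper29_nit n hn, Complex.norm_real, Complex.norm_real,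
          Real.norm_eq_abs, Real.norm_eq_abs, abs_of_pos (Real.exp_pos _), abs_of_nonneg h2, mul_one]
      rw [setIntegral_congr_fun measurableSet_Ioi h1, integral_const_mul,
        (helper29_int σ hσ n hn).2]
      have h3 := helper29_c1_norm n
      have h4 : (1 / (n : ℝ)) ^ σ ≤ 1 := by
        apply Real.rpow_le_one (by positivity) _ hσ.le
        rw [div_le_one hn0]
        exact_mod_cast Nat.one_le_iff_ne_zero.2 hn
      have h5 : 0 ≤ (1 / (n : ℝ)) ^ σ := by positivity
      have h6 := Real.exp_pos (-((n : ℝ) / N))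
      calc ‖c1 n‖ * Real.exp (-((n : ℝ) / N)) * ((1 / (n : ℝ)) ^ σ * Real.Gamma σ)
          ≤ 1 * Real.exp (-((n : ℝ) / N)) * (1 * Real.Gamma σ) := by gcongr
        _ = Real.Gamma σ * Real.exp (-((n : ℝ) / N)) := by ring
  have hsum : Summable (fun n => ∫ y in Ioi (0 : ℝ), ‖f n y‖) := by
    refine Summable.of_nonneg_of_le (fun n => integral_nonneg fun _ => norm_nonneg _) hnorm ?_
    apply Summable.mul_left
    have h1 : ∀ n : ℕ, Real.exp (-((n : ℝ) / N)) = Real.exp (-(1 / N)) ^ n := by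
      intro n
      rw [← Real.exp_nat_mul]
      congr 1
      ring
    simp only [h1]
    apply summable_geometric_of_lt_one (Real.exp_pos _).le
    rw [Real.exp_lt_one_iff]
    have : 0 < 1 / N := by positivity
    linarith
  have hmain := hasSum_integral_of_summable_integral_norm hint hsum
  have h1 : ∀ n, ∫ y in Ioi (0 : ℝ), f n y = (Real.Gamma σ : ℂ) *
      (c1 n * ((Real.exp (-((n : ℝ) / N)) : ℝ) : ℂ) * (n : ℂ) ^ (-((σ : ℂ) + t * I))) := by
    intro n
    by_cases hn : n = 0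
    · subst hn
      simp [hf, c1]
    · have hn0 : (0 : ℝ) < n := by exact_mod_cast Nat.pos_of_ne_zero hn
      have hnc : (n : ℂ) ≠ 0 := by exact_mod_cast hn
      simp only [hf]
      rw [integral_const_mul, integral_complex_ofReal, (helper29_int σ hσ n hn).2]
      have h2 : (((1 / (n : ℝ)) ^ σ : ℝ) : ℂ) = (n : ℂ) ^ (-(σ : ℂ)) := by
        rw [one_div, Real.inv_rpow hn0.le, ← Real.rpow_neg hn0.le, Complex.ofReal_cpow hn0.le]
        push_cast
        rfl
      have h3 : (n : ℂ) ^ (-((σ : ℂ) + t * I)) = (n : ℂ) ^ (-(σ : ℂ)) * (n : ℂ) ^ (-((t : ℂ) * I)) := by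
        rw [← Complex.cpow_add _ _ hnc]
        congr 1
        ring
      rw [h3]
      rw [Complex.ofReal_mul, h2]
      ring
  have h2 : ∀ y ∈ Ioi (0 : ℝ), ∑' n, f n y =
      S c1 (1 / (y + 1 / N)) t * ((y ^ (σ - 1) : ℝ) : ℂ) := by
    intro y hy
    have hy0 : (0 : ℝ) < y := hy
    unfold S
    rw [← tsum_mul_right]
    apply tsum_congr
    intro n
    simp only [hf]
    have h3 : Real.exp (-((n : ℝ) / (1 / (y + 1 / N)))) =
        Real.exp (-((n : ℝ) / N)) * Real.exp (-((n : ℝ) * y)) := by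
      rw [← Real.exp_add]
      congr 1
      have : 0 < y + 1 / N := by positivity
      rw [div_div_eq_mul_div]
      ring
    rw [h3]
    push_cast
    ring
  rw [setIntegral_congr_fun measurableSet_Ioi h2] at hmain
  rw [← hmain.tsum_eq]
  simp only [h1]
  rw [tsum_mul_left]

theorem SZ0 : SZ0_stmt := by
  have hcont : ContinuousOn Real.Gamma (Icc (1 / 2 : ℝ) 1) := by
    intro x hx
    have h1 : DifferentiableAt ℝ Real.Gamma x := by
      apply Real.differentiableAt_Gamma
      intro m hm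
      have h2 := hx.1
      rw [hm] at h2
      have : (0 : ℝ) ≤ m := Nat.cast_nonneg m
      linarith
    exact h1.continuousAt.continuousWithinAt
  obtain ⟨x0, hx0, hmin⟩ := isCompact_Icc.exists_isMinOn (nonempty_Icc.2 (by norm_num)) hcont
  set c : ℝ := Real.Gamma x0 with hc
  have hc0 : 0 < c := Real.Gamma_pos_of_pos (by linarith [hx0.1])
  refine ⟨2 / c + 2, by positivity, ?_⟩
  intro σ t N V hσ hσ1 hN hV hS
  have hσ0 : 0 < σ := by linarith
  have hN0 : 0 < N := by linarith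
  have hΓ := Real.Gamma_pos_of_pos hσ0
  have hΓc : c ≤ Real.Gamma σ := hmin (show σ ∈ Icc (1 / 2 : ℝ) 1 from ⟨hσ, hσ1⟩)
  have hlog : 0 ≤ Real.log N := Real.log_nonneg hN
  set D : ℂ := ∑' n : ℕ, c1 n * ((Real.exp (-((n : ℝ) / N)) : ℝ) : ℂ) *
    (n : ℂ) ^ (-((σ : ℂ) + t * I)) with hD
  have hrep := helper29_rep σ t N hσ0 hN
  rw [← hD] at hrep
  -- the three parts of the bound
  set b1 : ℝ → ℝ := (Ioc (0 : ℝ) (1 / N)).indicator (fun y => V * N ^ σ * y ^ (σ - 1)) with hb1
  set b2 : ℝ → ℝ := (Ioc (1 / N) (1 : ℝ)).indicator (fun y => V * y⁻¹) with hb2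
  set b3 : ℝ → ℝ := fun y => 2 * (y ^ (σ - 1) * Real.exp (-(((1 : ℕ) : ℝ) * y))) with hb3
  have hN1 : 1 / N ≤ 1 := by rw [div_le_one hN0]; exact hN
  have hNi : 0 < 1 / N := by positivity
  have hsub1 : Ioc (0 : ℝ) (1 / N) ⊆ Ioi 0 := fun x hx => hx.1
  have hsub2 : Ioc (1 / N) (1 : ℝ) ⊆ Ioi 0 := fun x hx => hNi.trans hx.1
  have i1' : IntegrableOn (fun y : ℝ => V * N ^ σ * y ^ (σ - 1)) (Ioc 0 (1 / N)) := by
    have h1 : IntervalIntegrable (fun y : ℝ => y ^ (σ - 1)) volume 0 (1 / N) :=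
      intervalIntegral.intervalIntegrable_rpow' (by linarith)
    exact ((intervalIntegrable_iff_integrableOn_Ioc_of_le hNi.le).1 h1).const_mul _
  have i2' : IntegrableOn (fun y : ℝ => V * y⁻¹) (Ioc (1 / N) 1) := by
    have h1 : ContinuousOn (fun y : ℝ => V * y⁻¹) (Icc (1 / N) 1) := by
      apply ContinuousOn.mul continuousOn_const
      apply ContinuousOn.inv₀ continuousOn_id
      intro x hx
      exact (hNi.trans_le hx.1).ne'
    exact (h1.integrableOn_Icc).mono_set Ioc_subset_Icc_self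
  have i1 : Integrable b1 (volume.restrict (Ioi (0 : ℝ))) := by
    rw [hb1, integrable_indicator_iff measurableSet_Ioc, IntegrableOn,
      Measure.restrict_restrict measurableSet_Ioc, inter_eq_left.2 hsub1]
    exact i1'
  have i2 : Integrable b2 (volume.restrict (Ioi (0 : ℝ))) := by
    rw [hb2, integrable_indicator_iff measurableSet_Ioc, IntegrableOn,
      Measure.restrict_restrict measurableSet_Ioc, inter_eq_left.2 hsub2]
    exact i2'
  have i3 : Integrable b3 (volume.restrict (Ioi (0 : ℝ))) :=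
    (helper29_int σ hσ0 1 one_ne_zero).1.const_mul 2
  have v1 : ∫ y in Ioi (0 : ℝ), b1 y = V * (1 / σ) := by
    rw [hb1, integral_indicator measurableSet_Ioc, Measure.restrict_restrict measurableSet_Ioc,
      inter_eq_left.2 hsub1, ← intervalIntegral.integral_of_le hNi.le,
      intervalIntegral.integral_const_mul, integral_rpow (Or.inl (by linarith))]
    have e1 : σ - 1 + 1 = σ := by ring
    rw [e1, Real.zero_rpow hσ0.ne', sub_zero, one_div, Real.inv_rpow hN0.le]
    have : 0 < N ^ σ := by positivity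
    field_simp
  have v2 : ∫ y in Ioi (0 : ℝ), b2 y = V * Real.log N := by
    rw [hb2, integral_indicator measurableSet_Ioc, Measure.restrict_restrict measurableSet_Ioc,
      inter_eq_left.2 hsub2, ← intervalIntegral.integral_of_le hN1,
      intervalIntegral.integral_const_mul, integral_inv_of_pos hNi one_pos]
    congr 2
    field_simp
  have v3 : ∫ y in Ioi (0 : ℝ), b3 y = 2 * Real.Gamma σ := by
    rw [hb3, integral_const_mul, (helper29_int σ hσ0 1 one_ne_zero).2]
    simp
  have hbound : ∀ y ∈ Ioi (0 : ℝ), ‖S c1 (1 / (y + 1 / N)) t * ((y ^ (σ - 1) : ℝ) : ℂ)‖ ≤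
      b1 y + b2 y + b3 y := by
    intro y hy
    have hy0 : (0 : ℝ) < y := hy
    have hyp : 0 < y ^ (σ - 1) := by positivity
    have n1 : 0 ≤ b1 y := indicator_nonneg (fun z hz => by
      have : (0 : ℝ) < z := hz.1
      positivity) y
    have n2 : 0 ≤ b2 y := indicator_nonneg (fun z hz => by
      have : (0 : ℝ) < z := hNi.trans hz.1
      positivity) y
    have n3 : 0 ≤ b3 y := by rw [hb3]; positivity
    rw [norm_mul, Complex.norm_real, Real.norm_eq_abs, abs_of_pos hyp]
    have hu : 0 < y + 1 / N := by positivity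
    by_cases h1 : y + 1 / N ≤ 1
    · have h2 := hS (1 / (y + 1 / N)) (by rw [le_div_iff₀ hu]; linarith) (by
        rw [div_le_iff₀ hu]
        have : N * (1 / N) = 1 := by field_simp
        nlinarith)
      have h3 : (1 / (y + 1 / N)) ^ σ * V * y ^ (σ - 1) ≤ b1 y + b2 y := by
        by_cases h4 : y ≤ 1 / N
        · have e1 : b1 y = V * N ^ σ * y ^ (σ - 1) := indicator_of_mem (show y ∈ Ioc (0 : ℝ) (1 / N) from ⟨hy0, h4⟩) _
          have e2 : (1 / (y + 1 / N)) ^ σ ≤ N ^ σ := by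
            apply Real.rpow_le_rpow (by positivity) _ hσ0.le
            rw [div_le_iff₀ hu]
            have : N * (1 / N) = 1 := by field_simp
            nlinarith
          rw [e1]
          have e3 : (1 / (y + 1 / N)) ^ σ * V * y ^ (σ - 1) ≤ N ^ σ * V * y ^ (σ - 1) := by
            gcongr
          linarith
        · push Not at h4
          have e1 : b2 y = V * y⁻¹ := indicator_of_mem (show y ∈ Ioc (1 / N) (1 : ℝ) from ⟨h4, by linarith⟩) _
          have e2 : (1 / (y + 1 / N)) ^ σ ≤ (y⁻¹) ^ σ := by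
            apply Real.rpow_le_rpow (by positivity) _ hσ0.le
            rw [← one_div]
            apply one_div_le_one_div_of_le hy0
            linarith
          have e4 : (y⁻¹) ^ σ * y ^ (σ - 1) = y⁻¹ := by
            rw [Real.inv_rpow hy0.le, ← Real.rpow_neg hy0.le, ← Real.rpow_add hy0,
              ← Real.rpow_neg_one]
            congr 1
            ring
          rw [e1]
          have e3 : (1 / (y + 1 / N)) ^ σ * V * y ^ (σ - 1) ≤ (y⁻¹) ^ σ * V * y ^ (σ - 1) := by
            gcongr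
          have e5 : (y⁻¹) ^ σ * V * y ^ (σ - 1) = V * y⁻¹ := by
            calc (y⁻¹) ^ σ * V * y ^ (σ - 1) = V * ((y⁻¹) ^ σ * y ^ (σ - 1)) := by ring
              _ = V * y⁻¹ := by rw [e4]
          linarith
      have h4 : ‖S c1 (1 / (y + 1 / N)) t‖ * y ^ (σ - 1) ≤
          (1 / (y + 1 / N)) ^ σ * V * y ^ (σ - 1) := mul_le_mul_of_nonneg_right h2 hyp.le
      linarith
    · push Not at h1
      have h2 := helper29_short t (y + 1 / N) h1.le
      have h3 : Real.exp (-(y + 1 / N)) ≤ Real.exp (-(((1 : ℕ) : ℝ) * y)) := by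
        apply Real.exp_le_exp.2
        push_cast
        linarith
      have h4 : ‖S c1 (1 / (y + 1 / N)) t‖ * y ^ (σ - 1) ≤ b3 y := by
        rw [hb3]
        calc ‖S c1 (1 / (y + 1 / N)) t‖ * y ^ (σ - 1)
            ≤ (2 * Real.exp (-(((1 : ℕ) : ℝ) * y))) * y ^ (σ - 1) := by
              gcongr
              linarith
          _ = 2 * (y ^ (σ - 1) * Real.exp (-(((1 : ℕ) : ℝ) * y))) := by ring
      linarith
  have hI : ‖∫ y in Ioi (0 : ℝ), S c1 (1 / (y + 1 / N)) t * ((y ^ (σ - 1) : ℝ) : ℂ)‖ ≤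
      ∫ y in Ioi (0 : ℝ), (b1 y + b2 y + b3 y) := by
    apply norm_integral_le_of_norm_le ((i1.add i2).add i3)
    exact (ae_restrict_iff' measurableSet_Ioi).2 (Filter.Eventually.of_forall hbound)
  have hI2 : ∫ y in Ioi (0 : ℝ), (b1 y + b2 y + b3 y) =
      V * (1 / σ) + V * Real.log N + 2 * Real.Gamma σ := by
    have e1 : ∫ y in Ioi (0 : ℝ), (b1 y + b2 y + b3 y) =
        (∫ y in Ioi (0 : ℝ), (b1 y + b2 y)) + ∫ y in Ioi (0 : ℝ), b3 y :=
      integral_add (i1.add i2) i3
    have e2 : ∫ y in Ioi (0 : ℝ), (b1 y + b2 y) =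
        (∫ y in Ioi (0 : ℝ), b1 y) + ∫ y in Ioi (0 : ℝ), b2 y := integral_add i1 i2
    rw [e1, e2, v1, v2, v3]
  rw [← hrep, norm_mul, Complex.norm_real, Real.norm_eq_abs, abs_of_pos hΓ, hI2] at hI
  have hsig : 1 / σ ≤ 2 := by
    rw [div_le_iff₀ hσ0]; linarith
  have hfin : Real.Gamma σ * ‖D‖ ≤ Real.Gamma σ * ((2 / c + 2) * V * (1 + Real.log N)) := by
    refine hI.trans ?_
    have g1 : V * (1 / σ) ≤ V * 2 := by gcongr
    have g2 : V * 2 + V * Real.log N ≤ 2 * V * (1 + Real.log N) := by nlinarith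
    have g3 : 2 * V * (1 + Real.log N) ≤ Real.Gamma σ * (2 / c * V * (1 + Real.log N)) := by
      have g4 : 1 ≤ Real.Gamma σ / c := by rw [le_div_iff₀ hc0]; linarith
      have g5 : Real.Gamma σ * (2 / c * V * (1 + Real.log N)) =
          (Real.Gamma σ / c) * (2 * V * (1 + Real.log N)) := by ring
      rw [g5]
      exact le_mul_of_one_le_left (by positivity) g4
    have g6 : 2 * Real.Gamma σ ≤ Real.Gamma σ * (2 * V * (1 + Real.log N)) := by
      have g7 : 1 ≤ V * (1 + Real.log N) := by nlinarith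
      nlinarith
    have g8 : Real.Gamma σ * ((2 / c + 2) * V * (1 + Real.log N)) =
        Real.Gamma σ * (2 / c * V * (1 + Real.log N)) +
          Real.Gamma σ * (2 * V * (1 + Real.log N)) := by ring
    rw [g8]
    linarith
  exact le_of_mul_le_mul_left hfin hΓ

end Pool.Agent.EQ
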